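import Pool.Agent.N352.PJ.Idx
import Pool.Agent.N874.PM.Stm

/-!
# A positive proportion of all odd hyperelliptic Jacobians over `k(t)`, over a Galois 2-extension `M`
# of `k(t)`: statements of the parts

Project JM (helper874), the common generalisation of the projects PJ (helper352) and PM (helper874).
`Fam`, `GoodS`, `GoodR`, `Cg`, `LBad`, `IsGen`, `dsc` are in `N352/PJ/Def.lean`, `N352/PJ/Lat.lean`,
`Ov`, `Ev`, `Sq1`, `U0` in `N874/PP/Def.lean`, `Gen`, `SplitMod`, `Lies` in `N874/PM/Stm.lean`.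
-/

set_option autoImplicit false
set_option linter.all false

open Polynomial IsDedekindDomain
open Pool.Agent.N352.PJ
open Pool.Agent.N874.PP (nm Ov Ev Sq1 U0)
open Pool.Agent.N874.PM (Lies)
open scoped Classical IntermediateField

namespace Pool.Agent.N874.JM

/-! ### The family with additional conditions -/

/-- The primes in `T` and the polynomials `A P` which are irreducible modulo `P`. -/
def GoodT (g : ℕ) {k : Type} [Field k] (T : Finset k[X]) (A : k[X] → k[X][X]) : Prop :=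
  ∀ P ∈ T, P.Monic ∧ Irreducible P ∧ (A P).Monic ∧ (A P).natDegree = 2 * g + 1 ∧
    (A P).coeff (2 * g) = 0 ∧ Irreducible ((A P).map (Ideal.Quotient.mk (Ideal.span {P})))

/-- The family with the additional conditions at the primes in `T`. -/
structure FamT (g : ℕ) {k : Type} [Field k] (N : ℕ) (r : k[X]) (S : Finset k[X])
    (h : k[X] → k[X][X]) (T : Finset k[X]) (A : k[X] → k[X][X]) (f : k[X][X]) : Prop where
  fam : Fam g N r S h f
  con : ∀ P ∈ T, Cg P f (A P)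

/-- Many polynomials in the family (the constant does not depend on `S`). -/
def S_FAMT : Prop := ∀ (g : ℕ) (k : Type) [Field k] [Finite k], 1 ≤ g →
  ((2 * g + 1).factorial : k) ≠ 0 → ∀ r : k[X], GoodR g r →
  ∀ (T : Finset k[X]) (A : k[X] → k[X][X]), GoodT g T A →
  ∃ c : ℝ, 0 < c ∧ ∀ (S : Finset k[X]) (h : k[X] → k[X][X]), GoodS g S h → Disjoint S T →
    ∃ N₀ : ℕ, ∀ N ≥ N₀,
    c * (Nat.card k : ℝ) ^ (2 * N * dd g) ≤ ((∏ Q ∈ S, nm Q ^ (2 * g) : ℕ) : ℝ) *
      ({f : k[X][X] | FamT g N r S h T A f}.ncard : ℝ)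

/-- Existence of the residues. -/
def S_TCH : Prop := ∀ (g : ℕ) (k : Type) [Field k] [Finite k], 1 ≤ g →
  ((2 * g + 1).factorial : k) ≠ 0 → ∀ T : Finset k[X], (∀ P ∈ T, P.Monic ∧ Irreducible P) →
  (∃ A : k[X] → k[X][X], GoodT g T A) ∧ ∃ h : k[X] → k[X][X], GoodS g T h

/-- The parity at the prime over `P` if `f` is irreducible modulo `P`. -/
def S_P3 : Prop := ∀ (g : ℕ) (k K L O : Type) [Field k] [Finite k] [Field K] [Algebra k[X] K]
  [IsFractionRing k[X] K]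
  [Field L] [Algebra K L] [Algebra k[X] L] [IsScalarTower k[X] K L] [CommRing O]
  [IsDedekindDomain O] [Algebra O L] [IsFractionRing O L] [Algebra k[X] O]
  [IsScalarTower k[X] O L] [IsIntegralClosure O k[X] L] (f : k[X][X]) (θ : L),
  IsGen g K f θ → Squarefree (dsc g f) →
  ∀ P : k[X], Irreducible P → Irreducible (f.map (Ideal.Quotient.mk (Ideal.span {P}))) →
  ∀ x : L, x ≠ 0 → IsSquare (Algebra.norm K x) →
    ∀ 𝔓 : HeightOneSpectrum O, Ov P 𝔓 → Ev 𝔓 x

/-- At most one prime over `P` divides `f'(θ)`, and it is of degree one. -/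
def S_RAM : Prop := ∀ (g : ℕ) (k K L O : Type) [Field k] [Finite k] [Field K] [Algebra k[X] K]
  [IsFractionRing k[X] K]
  [Field L] [Algebra K L] [Algebra k[X] L] [IsScalarTower k[X] K L] [CommRing O]
  [IsDedekindDomain O] [Algebra O L] [IsFractionRing O L] [Algebra k[X] O]
  [IsScalarTower k[X] O L] [IsIntegralClosure O k[X] L] (f : k[X][X]) (θ : L),
  IsGen g K f θ → Squarefree (dsc g f) →
  ∀ P : k[X], Irreducible P → ∀ 𝔓₀ : HeightOneSpectrum O, Ov P 𝔓₀ →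
    𝔓₀.valuation L (eval₂ (algebraMap k[X] L) θ (derivative f)) < 1 →
    (∃ c : k[X], 𝔓₀.valuation L (θ - algebraMap k[X] L c) < 1) ∧
    ∀ 𝔓 : HeightOneSpectrum O, Ov P 𝔓 → 𝔓 ≠ 𝔓₀ →
      𝔓.valuation L (eval₂ (algebraMap k[X] L) θ (derivative f)) = 1

/-! ### Galois descent along 2-extensions -/

/-- Descent along a quadratic extension. -/
def S_QS : Prop := ∀ (K L M Ω : Type) [Field K] [Field L] [Field M] [Field Ω] [Algebra K L]
  [Algebra K M] [Algebra L Ω] [Algebra M Ω] [Algebra K Ω] [IsScalarTower K L Ω]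
  [IsScalarTower K M Ω], (2 : K) ≠ 0 → Module.finrank K M = 2 → Odd (Module.finrank K L) →
  Module.finrank M Ω = Module.finrank K L → ∀ C : Ω → Prop, (∀ x : Ω, x ≠ 0 → C (x ^ 2)) →
  (∀ x y : Ω, x ≠ 0 → y ≠ 0 → C x → C y → C (x * y)) →
  (∀ (σ : Ω ≃ₐ[L] Ω) (x : Ω), C x → C (σ x)) →
  (∀ x : L, x ≠ 0 → C (algebraMap L Ω x) → IsSquare (Algebra.norm K x) → IsSquare x) →
  ∀ x : Ω, x ≠ 0 → C x → IsSquare (Algebra.norm M x) → IsSquare x

/-- Descent along a Galois 2-extension. -/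
def S_TOW : Prop := ∀ (n : ℕ) (K L M Ω : Type) [Field K] [Field L] [Field M] [Field Ω]
  [Algebra K L] [Algebra K M] [Algebra L Ω] [Algebra M Ω] [Algebra K Ω] [IsScalarTower K L Ω]
  [IsScalarTower K M Ω] [IsGalois K M], (2 : K) ≠ 0 → Module.finrank K M = 2 ^ n →
  Odd (Module.finrank K L) → Module.finrank M Ω = Module.finrank K L →
  ∀ C : Ω → Prop, (∀ x : Ω, x ≠ 0 → C (x ^ 2)) →
  (∀ x y : Ω, x ≠ 0 → y ≠ 0 → C x → C y → C (x * y)) →
  (∀ (σ : Ω ≃ₐ[L] Ω) (x : Ω), C x → C (σ x)) →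
  (∀ x : L, x ≠ 0 → C (algebraMap L Ω x) → IsSquare (Algebra.norm K x) → IsSquare x) →
  ∀ x : Ω, x ≠ 0 → C x → IsSquare (Algebra.norm M x) → IsSquare x

/-! ### Local analysis over `M` -/

/-- The class of `h(Θ)`, `f(Θ) = 0`, comes from a point of the Jacobian of `y ^ 2 = f(x)` over
the extension `F` of `M`: up to squares it is a product of elements `(-1) ^ deg u * u(Θ)` with
`u ∣ v ^ 2 - f`, the images of the divisors of points with `u(x) = 0`, `y = v(x)`. -/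
def LocF {M : Type} (F : Type) [Field M] [Field F] [Algebra M F] (f h : M[X]) : Prop :=
  ∃ (l : List (F[X] × F[X])) (s : F[X]),
    (∀ p ∈ l, p.1.Monic ∧ IsCoprime p.1 (f.map (algebraMap M F)) ∧
      p.1 ∣ p.2 ^ 2 - f.map (algebraMap M F)) ∧
    f.map (algebraMap M F) ∣
      h.map (algebraMap M F) * (l.map fun p => (-1) ^ p.1.natDegree * p.1).prod - s ^ 2

/-- The 2-Selmer group of the Jacobian of `y ^ 2 = f(x)` over `M` (without conditions at the places
outside `R`) is zero. -/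
def SelF (R : Type) {M : Type} [Field M] [CommRing R] [IsDedekindDomain R] [Algebra R M]
    [IsFractionRing R M] (f : M[X]) : Prop :=
  ∀ h : M[X], IsCoprime h f → IsSquare (Algebra.norm M (AdjoinRoot.mk f h)) →
    (∀ w : HeightOneSpectrum R, LocF (w.adicCompletion M) f h) → ∃ s : M[X], f ∣ h - s ^ 2

/-- The map between completions. -/
def S_CPL : Prop := ∀ (M Ω R O : Type) [Field M] [Field Ω] [Algebra M Ω] [CommRing R]
  [IsDedekindDomain R] [Algebra R M] [IsFractionRing R M] [CommRing O] [IsDedekindDomain O]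
  [Algebra O Ω] [IsFractionRing O Ω] (w : HeightOneSpectrum R) (𝔓 : HeightOneSpectrum O),
  Lies (M := M) (Ω := Ω) w 𝔓 →
  ∃ ι : w.adicCompletion M →+* 𝔓.adicCompletion Ω,
    (∀ x : M, ι (algebraMap M (w.adicCompletion M) x) =
      algebraMap Ω (𝔓.adicCompletion Ω) (algebraMap M Ω x)) ∧
    (∀ x, Valued.v (Γ₀ := WithZero (Multiplicative ℤ)) x ≤ 1 →
      Valued.v (Γ₀ := WithZero (Multiplicative ℤ)) (ι x) ≤ 1) ∧
    (∀ x, Valued.v (Γ₀ := WithZero (Multiplicative ℤ)) x < 1 →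
      Valued.v (Γ₀ := WithZero (Multiplicative ℤ)) (ι x) < 1)

/-- Primes at which `f'(θ)` is a unit: even valuations. -/
def S_LOC1 : Prop := ∀ (M Ω R O : Type) [Field M] [Field Ω] [Algebra M Ω] [CommRing R]
  [IsDedekindDomain R] [Algebra R M] [IsFractionRing R M] [CommRing O] [IsDedekindDomain O]
  [Algebra O Ω] [IsFractionRing O Ω] (w : HeightOneSpectrum R) (𝔓 : HeightOneSpectrum O),
  Lies (M := M) (Ω := Ω) w 𝔓 → w.valuation M 2 = 1 → ∀ (f h : M[X]) (D : M) (θ : Ω),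
  f.Monic → Odd f.natDegree → (∀ i, w.valuation M (f.coeff i) ≤ 1) → aeval θ f = 0 →
  𝔓.valuation Ω (aeval θ (derivative f)) = 1 → w.valuation M D = 1 →
  LocF (w.adicCompletion M) (f.scaleRoots D) h →
  aeval (algebraMap M Ω D * θ) h ≠ 0 → Ev 𝔓 (aeval (algebraMap M Ω D * θ) h)

/-- Primes dividing `D = ϖ D'`: `f = x h₀` modulo `w`, `h₀` irreducible modulo `w`. -/
def S_LOC2 : Prop := ∀ (M Ω R O : Type) [Field M] [Field Ω] [Algebra M Ω] [CommRing R]
  [IsDedekindDomain R] [Algebra R M] [IsFractionRing R M] [CommRing O] [IsDedekindDomain O]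
  [Algebra O Ω] [IsFractionRing O Ω] (w : HeightOneSpectrum R) (𝔓 : HeightOneSpectrum O)
  [Finite (R ⧸ w.asIdeal)] [Finite (O ⧸ 𝔓.asIdeal)],
  Lies (M := M) (Ω := Ω) w 𝔓 → w.valuation M 2 = 1 →
  ∀ (g : ℕ) (f h : M[X]) (h₀ : R[X]) (ϖ D' : M) (θ : Ω), 1 ≤ g → f.Monic →
  f.natDegree = 2 * g + 1 → h₀.Monic → h₀.natDegree = 2 * g →
  Irreducible (h₀.map (Ideal.Quotient.mk w.asIdeal)) →
  (∀ j, w.valuation M (f.coeff j - algebraMap R M ((X * h₀).coeff j)) < 1) → aeval θ f = 0 →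
  𝔓.valuation Ω θ = 1 → 𝔓.valuation Ω (algebraMap M Ω ϖ) = WithZero.exp (-1 : ℤ) →
  w.valuation M D' = 1 → Sq1 𝔓 (-1 : Ω) → Sq1 𝔓 (algebraMap M Ω D') →
  LocF (w.adicCompletion M) (f.scaleRoots (ϖ * D')) h →
  aeval (algebraMap M Ω (ϖ * D') * θ) h ≠ 0 →
  U0 𝔓 (algebraMap M Ω ϖ * θ) (aeval (algebraMap M Ω (ϖ * D') * θ) h)

end Pool.Agent.N874.JM
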