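import Pool.Agent.N874.JM.Top
import Pool.Agent.N874.PM.Big5
import Pool.Agent.N352.PJ.Tw

/-!
# The 2-Selmer group over the extension

Project JM (helper874).
-/

set_option autoImplicit false
set_option linter.all false

open Polynomial IsDedekindDomain
open Pool.Agent.N352.PJ
open Pool.Agent.N874.PP (nm Ov Ev Sq1 U0 S_CLS S_LIN cl cl_add_aux exists_below below_unique)
open Pool.Agent.N874.PM (ov_val val_le val_eq_of ov_down ev_down sq_down ev_sq ev_mul S_SIG Gen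
  SplitMod S_UR S_SPD S_LIE poly_approx val_two ov_prod)
open scoped Classical IntermediateField

namespace Pool.Agent.N874.JM

/-- All the parts which are used in the theorem on the Selmer group. -/
structure Parts : Prop where
  cls : S_CLS
  lin : S_LIN
  exq : S_EXQ
  csq : S_CSQ
  ns : S_NS
  par : S_PAR
  parq : S_PARQ
  recp : S_REC
  sd : S_SD
  tv : S_TV
  lb : S_LB
  irk : S_IRK
  ram : S_RAM
  ur : S_UR
  spd : S_SPD
  sig : S_SIG
  lie : S_LIE
  p3 : S_P3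
  tow : S_TOW
  loc1 : Pool.Agent.N874.JM.S_LOC1
  loc2 : Pool.Agent.N874.JM.S_LOC2

section abs

variable {k K L M Ω : Type} (O O' R : Type) [Field k] [Finite k] [Field K] [Field L] [Field M]
  [Field Ω]
  [Algebra k[X] K] [IsFractionRing k[X] K]
  [Algebra K L] [Algebra k[X] L] [IsScalarTower k[X] K L]
  [Algebra K M] [Algebra k[X] M] [IsScalarTower k[X] K M]
  [Algebra L Ω] [Algebra M Ω] [Algebra K Ω] [IsScalarTower K L Ω] [IsScalarTower K M Ω]
  [Algebra k[X] Ω] [IsScalarTower k[X] L Ω] [IsScalarTower k[X] M Ω]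
  [CommRing O] [IsDedekindDomain O] [Algebra O L] [IsFractionRing O L] [Algebra k[X] O]
  [IsScalarTower k[X] O L] [IsIntegralClosure O k[X] L] [Module.Finite k[X] O]
  [CommRing O'] [IsDedekindDomain O'] [Algebra O' Ω] [IsFractionRing O' Ω] [Algebra k[X] O']
  [IsScalarTower k[X] O' Ω] [IsIntegralClosure O' k[X] Ω] [Module.Finite k[X] O']
  [CommRing R] [IsDedekindDomain R] [Algebra R M] [IsFractionRing R M] [Algebra k[X] R]
  [IsScalarTower k[X] R M] [IsIntegralClosure R k[X] M] [Module.Finite k[X] R] [IsGalois K M]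

include O O' in
theorem selF_abs (H : Parts) {g : ℕ} {f : k[X][X]} {θ : L} {N : ℕ} {r : k[X]} {S T : Finset k[X]}
    {s A : k[X] → k[X][X]} (h2 : (2 : k) ≠ 0) (hg : 1 ≤ g) (hc : IsGen g K f θ)
    (hr : GoodR g r) (hS : GoodS g S s)
    (hF : FamT g N r S s T A f) (hnb : ¬ LBad g N S s f) (hT : GoodT g T A)
    {γ : M} {m : k[X][X]} {δ : k[X]} (hG : Gen K γ m δ)
    (hG' : Gen L (algebraMap M Ω γ) m δ) (hsp : ∀ Q ∈ S, SplitMod Q m)
    (hδ : ∀ P : k[X], P.Monic → Irreducible P → P ∣ δ → P ∈ T) (hdis : Disjoint S T)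
    {n : ℕ} (hM : Module.finrank K M = 2 ^ n) (hΩ : Module.finrank M Ω = 2 * g + 1) :
    ∃ J ⊆ S, ∀ h : M[X], aeval (algebraMap k[X] Ω (∏ Q ∈ J, Q) * algebraMap L Ω θ) h ≠ 0 →
      IsSquare (Algebra.norm M (aeval (algebraMap k[X] Ω (∏ Q ∈ J, Q) * algebraMap L Ω θ) h)) →
      (∀ w : HeightOneSpectrum R, LocF (w.adicCompletion M)
        ((f.scaleRoots (∏ Q ∈ J, Q)).map (algebraMap k[X] M)) h) →
      IsSquare (aeval (algebraMap k[X] Ω (∏ Q ∈ J, Q) * algebraMap L Ω θ) h) := by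
  haveI : Algebra.IsIntegral k[X] R := IsIntegralClosure.isIntegral_algebra k[X] M
  haveI : Algebra.IsIntegral k[X] O' := IsIntegralClosure.isIntegral_algebra k[X] Ω
  haveI : Algebra.IsIntegral k[X] O := IsIntegralClosure.isIntegral_algebra k[X] L
  have h2K : (2 : K) ≠ 0 := by
    have e : algebraMap k[X] K (C (2 : k)) = 2 := by
      rw [show (C (2 : k) : k[X]) = 2 from rfl, map_ofNat]
    rw [← e, Ne, IsFractionRing.to_map_eq_zero_iff, C_eq_zero]
    exact h2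
  have hT' : ∀ P ∈ T, P.Monic ∧ Irreducible P := fun P hP => ⟨(hT P hP).1, (hT P hP).2.1⟩
  have hS' : ∀ Q ∈ S, Q.Monic ∧ Irreducible Q := fun Q hQ => ⟨(hS Q hQ).1, (hS Q hQ).2.1⟩
  obtain ⟨J, hJ, hsel⟩ := core2 (K := K) (L := L) O H.cls H.lin H.exq H.ns H.parq H.recp H.sd H.tv
    H.lb hg h2 hc hr hS hF.fam hnb
  refine ⟨J, hJ, fun h hne hN hloc => ?_⟩
  have hcnd := cnd_top O O' R H.exq H.csq H.ur H.spd H.lie H.loc1 H.loc2 h2 hg hc hS hF.fam hG hG'
    hsp hT' hδ hdis hJ hloc hne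
  refine H.tow n K L M Ω h2K hM (by rw [hc.rank]; exact odd_two_mul_add_one g)
    (by rw [hΩ, hc.rank])
    (fun x => Cnd O' J T (algebraMap L Ω θ)
      (algebraMap L Ω (eval₂ (algebraMap k[X] L) θ (derivative f))) x) (fun x hx => cnd_sq hx)
    (fun x y hx hy h h' => cnd_mul H.cls h2 (fun Q hQ => (hS Q (hJ hQ)).2.1)
      (fun Q hQ 𝔓 h1 h3 => ?_) hx hy h h')
    (fun σ x h => cnd_sig H.sig rfl rfl σ h)
    (fun x hx hC hN => ?_) _ hne hcnd hN
  · have h4 := (q_top (K := K) O O' H.exq H.csq H.ur hg hc hF.fam.sq hS hG' (hJ hQ)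
      (hF.fam.con Q (hJ hQ)) 𝔓 h1 (not_ov_delta' hδ hS' hT' hdis (hJ hQ) h1) h3).1
    apply not_ev_exp
    rw [map_mul, h4, h3, mul_one]
  · refine base_sq O O' (fun Q hQ => hS' Q (hJ hQ)) hT' hsel (fun 𝔮 => ?_)
      (H.ur k L Ω O O' _ m δ hG').2
      (fun Q hQ => H.spd k L Ω O' _ m δ hG' Q (hS Q (hJ hQ)).2.1 (hsp Q (hJ hQ)))
      (fun P hP => H.p3 g k K L O f θ hc hF.fam.sq P (hT P hP).2.1 ?_)
      (H.ram g k K L O f θ hc hF.fam.sq)
      (H.par g k K L O f θ hc hF.fam.sq)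
      (fun 𝔓 h => Pool.Agent.N874.PM.ov_delta hδ h)
      (fun Q hQ 𝔓 h => not_ov_delta' hδ hS' hT' hdis (hJ hQ) h) hx hC hN
    · refine Pool.Agent.N704.PP.val_int (k := k) 𝔮 ?_
      rw [eval₂_eq_sum_range]
      exact IsIntegral.sum _ fun i _ => isIntegral_algebraMap.mul
        ((Pool.Agent.N769.PJ.theta_int hc).pow _)
    · have e : f.map (Ideal.Quotient.mk (Ideal.span {P})) =
          (A P).map (Ideal.Quotient.mk (Ideal.span {P})) := by
        ext j
        rw [coeff_map, coeff_map, ← sub_eq_zero, ← map_sub, Ideal.Quotient.eq_zero_iff_mem,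
          Ideal.mem_span_singleton]
        exact hF.con P hP j
      rw [e]
      exact (hT P hP).2.2.2.2.2

end abs

end Pool.Agent.N874.JM
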