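import Pool.Agent.N874.JM.Core

/-!
# The conditions over the extension

Project JM (helper874).
-/

set_option autoImplicit false
set_option linter.all false

open Polynomial IsDedekindDomain
open Pool.Agent.N352.PJ
open Pool.Agent.N874.PP (nm Ov Ev Sq1 U0 S_CLS S_LIN cl cl_add_aux exists_below below_unique)
open Pool.Agent.N874.PM (ov_val val_le val_eq_of ov_down ev_down sq_down ev_sq ev_mul S_SIG)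
open scoped Classical IntermediateField

namespace Pool.Agent.N874.JM

section cond

variable {k Ω : Type} [Field k] [Field Ω] [Algebra k[X] Ω] (O' : Type)
  [CommRing O'] [IsDedekindDomain O'] [Algebra O' Ω] [IsFractionRing O' Ω] [Algebra k[X] O']
  [IsScalarTower k[X] O' Ω]

/-- The conditions. -/
structure Cnd (J T : Finset k[X]) (θ η x : Ω) : Prop where
  ev : ∀ 𝔓 : HeightOneSpectrum O', (∀ P ∈ T, ¬ Ov P 𝔓) → (∀ Q ∈ J, ¬ Ov Q 𝔓) →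
    𝔓.valuation Ω η = 1 → Ev 𝔓 x
  u0 : ∀ Q ∈ J, ∀ 𝔓 : HeightOneSpectrum O', Ov Q 𝔓 → 𝔓.valuation Ω θ = 1 →
    U0 𝔓 (algebraMap k[X] Ω Q * θ) x

variable {O'} {J T : Finset k[X]} {θ η : Ω}

theorem cnd_sq {x : Ω} (hx : x ≠ 0) : Cnd O' J T θ η (x ^ 2) where
  ev 𝔓 _ _ _ := ev_sq 𝔓 x
  u0 Q _ 𝔓 _ _ := by
    refine ⟨fun _ => ⟨x, ?_⟩, fun h => absurd (ev_sq 𝔓 x) h⟩
    rw [sub_self, map_zero, zero_lt_iff]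
    exact (Valuation.ne_zero_iff _).2 (pow_ne_zero _ hx)

theorem cnd_mul [Finite k] [Algebra.IsIntegral k[X] O'] [Module.Finite k[X] O'] (hCLS : S_CLS)
    (h2 : (2 : k) ≠ 0) (hJ : ∀ Q ∈ J, Irreducible Q)
    (hϖ : ∀ Q ∈ J, ∀ 𝔓 : HeightOneSpectrum O', Ov Q 𝔓 → 𝔓.valuation Ω θ = 1 →
      ¬ Ev 𝔓 (algebraMap k[X] Ω Q * θ)) {x y : Ω} (hx : x ≠ 0) (hy : y ≠ 0)
    (h : Cnd O' J T θ η x) (h' : Cnd O' J T θ η y) : Cnd O' J T θ η (x * y) where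
  ev 𝔓 h1 h2 h3 := ev_mul (h.ev 𝔓 h1 h2 h3) (h'.ev 𝔓 h1 h2 h3)
  u0 Q hQ 𝔓 h1 h3 := by
    have h4 := hϖ Q hQ 𝔓 h1 h3
    have h5 : algebraMap k[X] Ω Q * θ ≠ 0 := by
      intro h0
      apply h4
      rw [h0]
      exact ⟨0, by simp⟩
    exact ((hCLS k Ω O' Q 𝔓 _ h2 (hJ Q hQ) h1 h5 h4 x y hx hy).2).2
      ⟨fun _ => h'.u0 Q hQ 𝔓 h1 h3, fun _ => h.u0 Q hQ 𝔓 h1 h3⟩

theorem cnd_sig [IsIntegralClosure O' k[X] Ω] (hSIG : S_SIG) {L : Type} [Field L] [Algebra L Ω]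
    [Algebra k[X] L] [IsScalarTower k[X] L Ω] {θ₀ η₀ : L} (hθ : θ = algebraMap L Ω θ₀)
    (hη : η = algebraMap L Ω η₀)
    (σ : Ω ≃ₐ[L] Ω) {x : Ω} (h : Cnd O' J T θ η x) : Cnd O' J T θ η (σ x) := by
  have hf : ∀ y : L, σ (algebraMap L Ω y) = algebraMap L Ω y := fun y => σ.commutes y
  have hp : ∀ P : k[X], σ (algebraMap k[X] Ω P) = algebraMap k[X] Ω P := fun P => by
    rw [IsScalarTower.algebraMap_apply k[X] L Ω, hf]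
  have key := hSIG k Ω O' (σ.restrictScalars k[X])
  have hev : ∀ (𝔓 𝔓' : HeightOneSpectrum O'), (∀ y : Ω, 𝔓'.valuation Ω y = 𝔓.valuation Ω (σ y)) →
      ∀ y : Ω, Ev 𝔓' y ↔ Ev 𝔓 (σ y) := by
    intro 𝔓 𝔓' hv y
    constructor
    · rintro ⟨z, hz⟩
      exact ⟨σ z, by rw [← hv, ← hv, hz]⟩
    · rintro ⟨z, hz⟩
      refine ⟨σ.symm z, ?_⟩
      rw [hv, hv, σ.apply_symm_apply, hz]
  have hsq : ∀ (𝔓 𝔓' : HeightOneSpectrum O'), (∀ y : Ω, 𝔓'.valuation Ω y = 𝔓.valuation Ω (σ y)) →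
      ∀ y : Ω, Sq1 𝔓' y → Sq1 𝔓 (σ y) := by
    rintro 𝔓 𝔓' hv y ⟨z, hz⟩
    refine ⟨σ z, ?_⟩
    rw [hv, hv, map_sub, map_pow] at hz
    exact hz
  refine ⟨fun 𝔓 h1 h2 h3 => ?_, fun Q hQ 𝔓 h1 h2 => ?_⟩
  · obtain ⟨𝔓', hv, hO⟩ := key 𝔓
    have hv' : ∀ y : Ω, 𝔓'.valuation Ω y = 𝔓.valuation Ω (σ y) := hv
    exact (hev 𝔓 𝔓' hv' x).1 (h.ev 𝔓' (fun P hP hc => h1 P hP ((hO P).1 hc))
      (fun Q hQ hc => h2 Q hQ ((hO Q).1 hc)) (by rw [hv', hη, hf, ← hη]; exact h3))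
  · obtain ⟨𝔓', hv, hO⟩ := key 𝔓
    have hv' : ∀ y : Ω, 𝔓'.valuation Ω y = 𝔓.valuation Ω (σ y) := hv
    have h3 := h.u0 Q hQ 𝔓' ((hO Q).2 h1) (by rw [hv', hθ, hf, ← hθ]; exact h2)
    refine ⟨fun h4 => hsq 𝔓 𝔓' hv' x (h3.1 ((hev 𝔓 𝔓' hv' x).2 h4)), fun h4 => ?_⟩
    have h5 := hsq 𝔓 𝔓' hv' _ (h3.2 fun h6 => h4 ((hev 𝔓 𝔓' hv' x).1 h6))
    rw [map_mul, map_mul, hp, hθ, hf, ← hθ] at h5
    exact h5

end cond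

section base

variable {k K L Ω : Type} (O O' : Type) [Field k] [Field K] [Field L] [Field Ω] [Algebra K L]
  [Algebra L Ω] [Algebra k[X] L]
  [Algebra k[X] Ω] [IsScalarTower k[X] L Ω]
  [CommRing O] [IsDedekindDomain O] [Algebra O L] [IsFractionRing O L] [Algebra k[X] O]
  [IsScalarTower k[X] O L] [Algebra.IsIntegral k[X] O]
  [CommRing O'] [IsDedekindDomain O'] [Algebra O' Ω] [IsFractionRing O' Ω] [Algebra k[X] O']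
  [IsScalarTower k[X] O' Ω]

theorem base_sq {θ η : L} {J T : Finset k[X]} {δ : k[X]}
    (hJm : ∀ Q ∈ J, Q.Monic ∧ Irreducible Q) (hTm : ∀ P ∈ T, P.Monic ∧ Irreducible P)
    (hsel : ∀ α : L, α ≠ 0 → IsSquare (Algebra.norm K α) →
      (∀ 𝔓 : HeightOneSpectrum O, (∀ Q ∈ J, ¬ Ov Q 𝔓) → Ev 𝔓 α) →
      (∀ Q ∈ J, ∀ 𝔓 : HeightOneSpectrum O, Ov Q 𝔓 → 𝔓.valuation L θ = 1 →
        U0 𝔓 (algebraMap k[X] L Q * θ) α) → IsSquare α)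
    (hη : ∀ 𝔓 : HeightOneSpectrum O, 𝔓.valuation L η ≤ 1)
    (hUR : ∀ 𝔓 : HeightOneSpectrum O, ¬ Ov δ 𝔓 → ∃ 𝔓' : HeightOneSpectrum O',
      ∀ x : L, 𝔓'.valuation Ω (algebraMap L Ω x) = 𝔓.valuation L x)
    (hSP : ∀ Q ∈ J, ∀ 𝔓' : HeightOneSpectrum O', Ov Q 𝔓' → ¬ Ov δ 𝔓' → ∀ s : Ω, s ≠ 0 →
      ∃ s₀ : L, 𝔓'.valuation Ω (s - algebraMap L Ω s₀) < 𝔓'.valuation Ω s)
    (hT : ∀ P ∈ T, ∀ x : L, x ≠ 0 → IsSquare (Algebra.norm K x) →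
      ∀ 𝔓 : HeightOneSpectrum O, Ov P 𝔓 → Ev 𝔓 x)
    (hRAM : ∀ P : k[X], Irreducible P → ∀ 𝔓₀ : HeightOneSpectrum O, Ov P 𝔓₀ →
      𝔓₀.valuation L η < 1 → (∃ c : k[X], 𝔓₀.valuation L (θ - algebraMap k[X] L c) < 1) ∧
      ∀ 𝔓 : HeightOneSpectrum O, Ov P 𝔓 → 𝔓 ≠ 𝔓₀ → 𝔓.valuation L η = 1)
    (hPAR : ∀ P : k[X], Irreducible P → ∀ (𝔓₀ : HeightOneSpectrum O) (c : k[X]), Ov P 𝔓₀ →
      𝔓₀.valuation L (θ - algebraMap k[X] L c) < 1 → ∀ x : L, x ≠ 0 →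
      IsSquare (Algebra.norm K x) →
      (∀ 𝔓 : HeightOneSpectrum O, Ov P 𝔓 → 𝔓 ≠ 𝔓₀ → Ev 𝔓 x) → Ev 𝔓₀ x)
    (hδ : ∀ 𝔓 : HeightOneSpectrum O, Ov δ 𝔓 → ∃ P ∈ T, Ov P 𝔓)
    (hJδ : ∀ Q ∈ J, ∀ 𝔓 : HeightOneSpectrum O, Ov Q 𝔓 → ¬ Ov δ 𝔓)
    {x : L} (hx : x ≠ 0)
    (hC : Cnd O' J T (algebraMap L Ω θ) (algebraMap L Ω η) (algebraMap L Ω x))
    (hN : IsSquare (Algebra.norm K x)) : IsSquare x := by
  have key : ∀ 𝔓 : HeightOneSpectrum O, (∀ P ∈ T, ¬ Ov P 𝔓) → (∀ Q ∈ J, ¬ Ov Q 𝔓) →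
      𝔓.valuation L η = 1 → Ev 𝔓 x := by
    intro 𝔓 h1 h2 h3
    obtain ⟨𝔓', hv⟩ := hUR 𝔓 fun h => by
      obtain ⟨P, hP, hP'⟩ := hδ 𝔓 h
      exact h1 P hP hP'
    rw [← ev_down hv]
    exact hC.ev 𝔓' (fun P hPT h => h1 P hPT ((ov_down hv P).1 h))
      (fun Q hQ h => h2 Q hQ ((ov_down hv Q).1 h)) (by rw [hv]; exact h3)
  refine hsel x hx hN (fun 𝔓 h𝔓 => ?_) (fun Q hQ 𝔓 h1 h2 => ?_)
  · by_cases hP : ∃ P ∈ T, Ov P 𝔓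
    · obtain ⟨P, hPT, hP𝔓⟩ := hP
      exact hT P hPT x hx hN 𝔓 hP𝔓
    · push_neg at hP
      by_cases h1 : 𝔓.valuation L η = 1
      · exact key 𝔓 hP h𝔓 h1
      · obtain ⟨P, hPm, hPi, hP𝔓⟩ := exists_below (k := k) 𝔓
        obtain ⟨⟨c, hc⟩, huniq⟩ := hRAM P hPi 𝔓 hP𝔓 (lt_of_le_of_ne (hη 𝔓) h1)
        refine hPAR P hPi 𝔓 c hP𝔓 hc x hx hN fun 𝔮 hq hne => ?_
        refine key 𝔮 (fun P' hP' h => ?_) (fun Q' hQ' h => ?_) (huniq 𝔮 hq hne)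
        · have := below_unique (hTm P' hP').1 (hTm P' hP').2 hPm hPi h hq
          exact hP P' hP' (this ▸ hP𝔓)
        · have := below_unique (hJm Q' hQ').1 (hJm Q' hQ').2 hPm hPi h hq
          exact h𝔓 Q' hQ' (this ▸ hP𝔓)
  · obtain ⟨𝔓', hv⟩ := hUR 𝔓 (hJδ Q hQ 𝔓 h1)
    have hQ' : Ov Q 𝔓' := (ov_down hv Q).2 h1
    have hd := hSP Q hQ 𝔓' hQ' (fun h => hJδ Q hQ 𝔓 h1 ((ov_down hv δ).1 h))
    have h3 := hC.u0 Q hQ 𝔓' hQ' (by rw [hv]; exact h2)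
    refine ⟨fun h4 => sq_down hv hd (h3.1 ((ev_down hv x).2 h4)), fun h4 => ?_⟩
    have h5 := h3.2 fun h6 => h4 ((ev_down hv x).1 h6)
    have e : algebraMap L Ω x * (algebraMap k[X] Ω Q * algebraMap L Ω θ) =
        algebraMap L Ω (x * (algebraMap k[X] L Q * θ)) := by
      rw [map_mul, map_mul, ← IsScalarTower.algebraMap_apply k[X] L Ω]
    rw [e] at h5
    exact sq_down hv hd h5

end base

end Pool.Agent.N874.JM
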