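import Pool.Agent.N874.JM.Fld
import Pool.Agent.N352.PJ.Mini
import Pool.Agent.N530.PP.Orb

/-!
# A positive proportion of all odd hyperelliptic Jacobians over a Galois 2-extension: counting

Project JM (helper874), after `N415/PJ/MAIN.lean` of helper415 and `N352/PJ/Mini.lean` of helper352.
-/

set_option autoImplicit false
set_option linter.all false

open Polynomial IsDedekindDomain
open Pool.Agent.N352.PJ
open Pool.Agent.N415.PJMAIN
open Pool.Agent.N874.PP (nm Ov Ev Sq1 U0)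
open Pool.Agent.N874.PM (Gen SplitMod S_GEN S_SPL)
open scoped Classical IntermediateField

namespace Pool.Agent.N874.JM

/-- Many polynomials of the family are not bad. -/
theorem good_cardT {g : ℕ} {k : Type} [Field k] [Finite k] (hFAMT : S_FAMT) (hBAD : S_BAD)
    (hg : 1 ≤ g) (hp : ((2 * g + 1).factorial : k) ≠ 0) (h2 : (2 : k) ≠ 0) {r : k[X]}
    (hr : GoodR g r) {T : Finset k[X]} {A : k[X] → k[X][X]} (hT : GoodT g T A)
    (Φ : k[X] → Prop)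
    (hEX : ∀ m : ℕ, ∃ (S : Finset k[X]) (s : k[X] → k[X][X]), GoodS g S s ∧ S.card = m ∧
      Disjoint S T ∧ ∀ Q ∈ S, Φ Q) :
    ∃ (S : Finset k[X]) (s : k[X] → k[X][X]) (c : ℝ), GoodS g S s ∧ Disjoint S T ∧
      (∀ Q ∈ S, Φ Q) ∧ 0 < c ∧ ∃ N₀ : ℕ, ∀ N ≥ N₀,
      c * (Nat.card k : ℝ) ^ (2 * N * dd g) ≤
        ({f : k[X][X] | FamT g N r S s T A f ∧ ¬ LBad g N S s f}.ncard : ℝ) := by
  obtain ⟨c, hc, hfam⟩ := hFAMT g k hg hp r hr T A hT
  obtain ⟨m, hm⟩ : ∃ m : ℕ, 2 ^ (g + 2) * (Nat.card k : ℝ) ^ dd g / c < 2 ^ m :=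
    pow_unbounded_of_one_lt _ (by norm_num)
  obtain ⟨S, s, hS, hcard, hdis, hΦ⟩ := hEX m
  obtain ⟨N₁, h1⟩ := hfam S s hS hdis
  obtain ⟨N₂, h2⟩ := hBAD g k hg h2 S s hS
  have hq : (0 : ℝ) < Nat.card k := by exact_mod_cast Nat.card_pos
  set P : ℕ := ∏ Q ∈ S, nm Q ^ (2 * g) with hP
  have hP0 : (0 : ℝ) < P := by
    have : 0 < P := Finset.prod_pos fun Q _ => pow_pos (pow_pos Nat.card_pos _) _
    exact_mod_cast this
  refine ⟨S, s, c / (2 * P), hS, hdis, hΦ, by positivity, max N₁ N₂, fun N hN => ?_⟩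
  have hF := h1 N ((le_max_left _ _).trans hN)
  obtain ⟨hfin, hB⟩ := h2 N ((le_max_right _ _).trans hN)
  have hd := Set.le_ncard_diff {f : k[X][X] | LBad g N S s f}
    {f : k[X][X] | FamT g N r S s T A f} hfin
  have e : {f : k[X][X] | FamT g N r S s T A f} \ {f : k[X][X] | LBad g N S s f} =
      {f : k[X][X] | FamT g N r S s T A f ∧ ¬ LBad g N S s f} := rfl
  rw [e] at hd
  set F : ℕ := {f : k[X][X] | FamT g N r S s T A f}.ncard
  set Bd : ℕ := {f : k[X][X] | LBad g N S s f}.ncard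
  set G : ℕ := {f : k[X][X] | FamT g N r S s T A f ∧ ¬ LBad g N S s f}.ncard
  have hd' : (F : ℝ) ≤ Bd + G := by
    have : F ≤ Bd + G := by omega
    exact_mod_cast this
  have hB' : (2 : ℝ) ^ m * P * Bd ≤ 2 ^ (g + 1) * (Nat.card k : ℝ) ^ ((2 * N + 1) * dd g) := by
    rw [hcard] at hB
    exact_mod_cast hB
  have hF' : c * (Nat.card k : ℝ) ^ (2 * N * dd g) ≤ P * F := hF
  rw [div_lt_iff₀ hc] at hm
  have hPB : P * (Bd : ℝ) ≤ c / 2 * (Nat.card k : ℝ) ^ (2 * N * dd g) := by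
    have h2r : (0 : ℝ) < 2 ^ m := by positivity
    rw [← mul_le_mul_iff_right₀ h2r]
    calc 2 ^ m * (P * (Bd : ℝ)) = 2 ^ m * P * Bd := by ring
      _ ≤ 2 ^ (g + 1) * (Nat.card k : ℝ) ^ ((2 * N + 1) * dd g) := hB'
      _ = (2 ^ (g + 2) * (Nat.card k : ℝ) ^ dd g) * ((Nat.card k : ℝ) ^ (2 * N * dd g) / 2) := by
        rw [show (2 * N + 1) * dd g = 2 * N * dd g + dd g by ring, pow_add]
        ring
      _ ≤ (2 ^ m * c) * ((Nat.card k : ℝ) ^ (2 * N * dd g) / 2) := by gcongr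
      _ = 2 ^ m * (c / 2 * (Nat.card k : ℝ) ^ (2 * N * dd g)) := by ring
  have hPG : c / 2 * (Nat.card k : ℝ) ^ (2 * N * dd g) ≤ P * G := by
    have : (P : ℝ) * F ≤ P * Bd + P * G := by
      rw [← mul_add]
      exact mul_le_mul_of_nonneg_left hd' hP0.le
    linarith
  calc c / (2 * P) * (Nat.card k : ℝ) ^ (2 * N * dd g)
      = c / 2 * (Nat.card k : ℝ) ^ (2 * N * dd g) / P := by field_simp
    _ ≤ P * G / P := by gcongr
    _ = G := by field_simp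

/-- A positive proportion of all curves, over `M`. -/
theorem mainF (H : Parts) (hFAMT : S_FAMT) (hBAD : S_BAD) (hGR : S_GR)
    (hTCH : Pool.Agent.N874.JM.S_TCH) (hGEN : S_GEN) (hSPL : S_SPL) {g : ℕ}
    (k : Type) [Field k] [Finite k] (hg : 1 ≤ g) (hp : ((2 * g + 1).factorial : k) ≠ 0)
    (K M : Type) [Field K] [Algebra k[X] K]
    [IsFractionRing k[X] K] [Field M] [Algebra K M] [Algebra k[X] M] [IsScalarTower k[X] K M]
    [FiniteDimensional K M] [IsGalois K M] (R : Type) [CommRing R] [IsDedekindDomain R]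
    [Algebra R M] [IsFractionRing R M] [Algebra k[X] R] [IsScalarTower k[X] R M]
    [IsIntegralClosure R k[X] M] {n : ℕ} (hM : Module.finrank K M = 2 ^ n) :
    ∃ c : ℝ, 0 < c ∧ ∃ N₀ : ℕ, ∀ N ≥ N₀, {f : k[X][X] | Ht g N f}.Finite ∧
    c * ({f : k[X][X] | Ht g N f}.ncard : ℝ) ≤
      ({f : k[X][X] | Ht g N f ∧ Mini g f ∧ (f.map (algebraMap k[X] K)).Separable ∧
        Irreducible (f.map (algebraMap k[X] K)) ∧
        SelF R (f.map (algebraMap k[X] M))}.ncard : ℝ) := by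
  have h2 : (2 : k) ≠ 0 := by
    intro h0
    apply hp
    obtain ⟨d, hd⟩ : 2 ∣ (2 * g + 1).factorial := Nat.dvd_factorial (by norm_num) (by omega)
    rw [hd, Nat.cast_mul, Nat.cast_ofNat, h0, zero_mul]
  have hfac : ∀ a : ℕ, 0 < a → a ≤ 2 * g + 1 → (a : k) ≠ 0 := by
    intro a ha ha' h0
    apply hp
    obtain ⟨d, hd⟩ : a ∣ (2 * g + 1).factorial := Nat.dvd_factorial ha ha'
    rw [hd, Nat.cast_mul, h0, zero_mul]
  have h6 : (6 : k) ≠ 0 := by
    have h3 := hfac 3 (by norm_num) (by omega)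
    have e : (6 : k) = 2 * ((3 : ℕ) : k) := by norm_num
    rw [e]
    exact mul_ne_zero h2 h3
  obtain ⟨r, hr⟩ := hGR g k hp
  obtain ⟨γ, m, δ, hG, hdeg⟩ := hGEN k K M
  -- the prime divisors of `δ`
  obtain ⟨T, hT', hδ⟩ : ∃ T : Finset k[X], (∀ P ∈ T, P.Monic ∧ Irreducible P) ∧
      ∀ P : k[X], P.Monic → Irreducible P → P ∣ δ → P ∈ T := by
    have hf : {P : k[X] | P.Monic ∧ Irreducible P ∧ P ∣ δ}.Finite := by
      refine (N530.PP.fin_nd δ.natDegree).subset ?_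
      rintro P ⟨-, -, h⟩
      exact natDegree_le_of_dvd h hG.ne
    refine ⟨hf.toFinset, fun P hP => ?_, fun P h1 h2 h3 => ?_⟩
    · have := hf.mem_toFinset.1 hP
      exact ⟨this.1, this.2.1⟩
    · exact hf.mem_toFinset.2 ⟨h1, h2, h3⟩
  obtain ⟨A, hT⟩ := (hTCH g k hg hp T hT').1
  obtain ⟨S, s, c, hS, hdis, hsp, hc, N₀, hN₀⟩ := good_cardT hFAMT hBAD hg hp h2 hr hT
    (fun Q => SplitMod Q m) (by
      intro a
      obtain ⟨S, s, hS, hcard, hdis, hsp⟩ := hSPL k K M γ m δ h6 hG hdeg T a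
      obtain ⟨h, hh⟩ := (hTCH g k hg hp S (fun Q hQ => ⟨(hS Q hQ).1, (hS Q hQ).2.1⟩)).2
      exact ⟨S, h, hh, hcard, hdis, hsp⟩)
  set e : ℕ := (∏ Q ∈ S, Q).natDegree with he
  have hq : (0 : ℝ) < Nat.card k := by exact_mod_cast Nat.card_pos
  have hq1 : (1 : ℝ) ≤ Nat.card k := by exact_mod_cast Nat.card_pos
  have hS0 : (∏ Q ∈ S, Q) ≠ 0 := by
    rw [Finset.prod_ne_zero_iff]
    exact fun Q hQ => (hS Q hQ).2.1.ne_zero
  refine ⟨c / (2 ^ S.card * (Nat.card k : ℝ) ^ ((e + 1) * dd g + 2 * g)), by positivity,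
    2 * N₀ + e, fun M' hM' => ⟨(ht_card g M').1, ?_⟩⟩
  obtain ⟨N, hN, hN1, hN2⟩ : ∃ N, N₀ ≤ N ∧ 2 * N + e ≤ M' ∧ M' ≤ 2 * N + e + 1 :=
    ⟨(M' - e) / 2, by omega, by omega, by omega⟩
  have hG' := hN₀ N hN
  set Hs := {f : k[X][X] | Ht g M' f ∧ Mini g f ∧ (f.map (algebraMap k[X] K)).Separable ∧
        Irreducible (f.map (algebraMap k[X] K)) ∧ SelF R (f.map (algebraMap k[X] M))} with hH
  set G := {f : k[X][X] | FamT g N r S s T A f ∧ ¬ LBad g N S s f} with hGdef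
  have hHf : Hs.Finite := (ht_card g M').1.subset fun f hf => hf.1
  have hGf : G.Finite := (ht_card g (2 * N)).1.subset fun f hf => hf.1.fam.ht
  have hJ0 : ∀ J ⊆ S, (∏ Q ∈ J, Q) ≠ 0 := by
    intro J hJ
    rw [Finset.prod_ne_zero_iff]
    exact fun Q hQ => (hS Q (hJ hQ)).2.1.ne_zero
  have hJs : ∀ J ⊆ S, Squarefree (∏ Q ∈ J, Q) := by
    intro J hJ
    refine Finset.squarefree_prod_of_pairwise_isCoprime ?_ fun Q hQ => (hS Q (hJ hQ)).2.1.squarefree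
    intro Q hQ Q' hQ' hne
    show IsRelPrime Q Q'
    refine IsCoprime.isRelPrime ?_
    rw [(hS Q (hJ hQ)).2.1.coprime_iff_not_dvd]
    intro hd
    exact hne (eq_of_monic_of_associated (hS Q (hJ hQ)).1 (hS Q' (hJ hQ')).1
      ((hS Q (hJ hQ)).2.1.associated_of_dvd (hS Q' (hJ hQ')).2.1 hd))
  have hcard := card_fib hGf hHf S (fun J f => f.scaleRoots (∏ Q ∈ J, Q)) (by
      intro f hf
      obtain ⟨J, hJ, hsel⟩ := selF H K M R hM h2 hg hr hS hf.1 hf.2 hT hG hsp hδ hdis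
      have hDle : (∏ Q ∈ J, Q).natDegree ≤ e :=
        natDegree_le_of_dvd (Finset.prod_dvd_prod_of_subset _ _ _ hJ) hS0
      obtain ⟨-, i2, i3⟩ := H.irk g k K f N r (∏ Q ∈ J, Q) hf.1.fam.ht hr hf.1.fam.inf (hJ0 J hJ)
      exact ⟨J, hJ, ht_scale hf.1.fam.ht (by omega),
        mini_scale hg hf.1.fam.ht.deg hf.1.fam.sq (hJs J hJ),
        (i3 hf.1.fam.sq.ne_zero).2, i2, hsel⟩) (by
      intro J hJ x hx y hy hxy
      exact scale_inj (hJ0 J hJ) (by rw [hx.1.fam.ht.deg, hy.1.fam.ht.deg]) hxy)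
  have hcard' : (G.ncard : ℝ) ≤ 2 ^ S.card * Hs.ncard := by exact_mod_cast hcard
  have hM'' : ({f : k[X][X] | Ht g M' f}.ncard : ℝ) ≤
      (Nat.card k : ℝ) ^ (2 * N * dd g) * (Nat.card k : ℝ) ^ ((e + 1) * dd g + 2 * g) := by
    have h3 : ({f : k[X][X] | Ht g M' f}.ncard : ℝ) ≤
        (Nat.card k : ℝ) ^ (M' * dd g + 2 * g) := by
      exact_mod_cast (ht_card (k := k) g M').2
    refine h3.trans ?_
    rw [← pow_add]
    refine pow_le_pow_right₀ hq1 ?_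
    have h4 : M' * dd g ≤ (2 * N + e + 1) * dd g := Nat.mul_le_mul_right _ hN2
    calc M' * dd g + 2 * g ≤ (2 * N + e + 1) * dd g + 2 * g := by omega
      _ = _ := by ring
  have hpow : (0 : ℝ) < (Nat.card k : ℝ) ^ ((e + 1) * dd g + 2 * g) := by positivity
  calc c / (2 ^ S.card * (Nat.card k : ℝ) ^ ((e + 1) * dd g + 2 * g)) *
        ({f : k[X][X] | Ht g M' f}.ncard : ℝ)
      ≤ c / (2 ^ S.card * (Nat.card k : ℝ) ^ ((e + 1) * dd g + 2 * g)) *
        ((Nat.card k : ℝ) ^ (2 * N * dd g) * (Nat.card k : ℝ) ^ ((e + 1) * dd g + 2 * g)) :=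
        mul_le_mul_of_nonneg_left hM'' (by positivity)
    _ = c * (Nat.card k : ℝ) ^ (2 * N * dd g) / 2 ^ S.card := by
        field_simp
    _ ≤ (G.ncard : ℝ) / 2 ^ S.card := by gcongr
    _ ≤ (2 ^ S.card * Hs.ncard) / 2 ^ S.card := by gcongr
    _ = Hs.ncard := by field_simp

end Pool.Agent.N874.JM
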