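import Pool.Agent.N874.JM.Fld
import Pool.Agent.N874.PM.Final0
import Pool.Agent.N507.JM.Loc2
import Pool.Agent.N123.JM.Loc1
import Pool.Agent.N615.JM.FamT2
import Pool.Agent.N615.JM.Tch
import Pool.Agent.N738.JM.P3
import Pool.Agent.N301.JM.QS
import Pool.Agent.N301.JM.TOW
import Pool.Agent.N814.JM.Cpl
import Pool.Agent.N270.PJ.Bad
import Pool.Agent.N87.PJ.CQ
import Pool.Agent.N697.PJ.ON
import Pool.Agent.N415.PJ.BOX
import Pool.Agent.N50.PJ.Orb
import Pool.Agent.N401.PJ.Exp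
import Pool.Agent.N738.PJ.Exs
import Pool.Agent.N769.PJ.Int
import Pool.Agent.N769.PJ.Eq
import Pool.Agent.N588.PJ.SD
import Pool.Agent.N765.PJ.TV
import Pool.Agent.N765.PJ.Exq
import Pool.Agent.N50.PJ.Red
import Pool.Agent.N415.PJ.WT
import Pool.Agent.N572.PJ.NRM
import Pool.Agent.N262.PJ.Chi
import Pool.Agent.N262.PJ.Uni
import Pool.Agent.N434.PJ.GAPSQ
import Pool.Agent.N227.PJ.LB
import Pool.Agent.N227.PJ.Par
import Pool.Agent.N227.PJ.Ns
import Pool.Agent.N787.PJ.Ext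
import Pool.Agent.N427.PJ.E1
import Pool.Agent.N434.PJ.B1
import Pool.Agent.N195.PJ.E2
import Pool.Agent.N434.PJ.HP
import Pool.Agent.N738.PJ.Lat
import Pool.Agent.N227.PJ.Idx
import Pool.Agent.N655.PJ.Gl
import Pool.Agent.N622.PJ.Rec
import Pool.Agent.N134.PJ.Irk

/-!
# All the parts of project JM

Project JM (helper874).
-/

set_option autoImplicit false
set_option linter.all false

open Polynomial IsDedekindDomain
open Pool.Agent.N352.PJ

namespace Pool.Agent.N874.JM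

theorem parts : Parts := by
  have hINT : S_INT := N769.PJ.int
  have hEXQ : S_EXQ := N765.PJ.exq hINT
  have hCSQ : S_CSQ := N765.PJ.csq hINT
  have hEXT : S_EXT := N787.PJ.ext
  have hCPL : Pool.Agent.N874.JM.S_CPL := N814.JM.cpl
  have hGL : S_GL := N655.PJ.gl hINT (N588.PJ.lti hINT) N50.PJ.red N415.PJWT.wt N415.PJWT.nw
    N262.PJ.det (N227.PJ.idx hINT hEXQ) N738.PJ.lat hEXQ
  exact
    { cls := N539.PP.cls
      lin := N498.PP.lin
      exq := hEXQ
      csq := hCSQ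
      ns := N227.PJ.ns hINT hEXQ
      par := N227.PJ.par hINT
      parq := N227.PJ.parq hINT hEXQ
      recp := N622.PJ.recp hINT hEXQ hCSQ N434.PJ.pry hGL
      sd := N588.PJ.sd hINT
      tv := N765.PJ.tv hINT
      lb := N227.PJ.lb hINT N50.PJ.red N415.PJWT.wt N415.PJWT.nw N572.PJ.nrm N262.PJ.chi
        N262.PJ.det (N262.PJ.uni hINT) N434.PJ.gap N434.PJ.sq
      irk := N134.PJ.irk
      ram := ram hINT
      ur := N603.PM.UR.ur
      spd := N169.PM.spd
      sig := N55.PM.sig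
      lie := N55.PM.lie
      p3 := N738.JM.p3 hINT
      tow := N301.JM.tow'
      loc1 := N123.JM.loc1 N427.PJ.e1 hEXT hCPL
      loc2 := N507.JM.loc2 (N195.PJ.E2.e2 N434.PJ.b1) N769.PJ.eq hEXT hCPL }

theorem bad : S_BAD := N270.PJ.bad (N415.PJBOX.box (N87.PJ.cq N697.PJ.on)) N415.PJBOX.box0
  N50.PJ.orb N401.PJ.exp_ineq

end Pool.Agent.N874.JM
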