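import Pool.Agent.N352.JB.All
import Pool.Agent.N874.JM.Fld

/-!
# From the explicit 2-Selmer group over `M` to the group of points and the Tate-Shafarevich group

Projects JM and JB (helper874, helper352).
-/

set_option autoImplicit false
set_option linter.all false

open Polynomial IsDedekindDomain
open scoped Classical

namespace Pool.Agent.N874.JM

open Pool.Agent.Y713.Jac

theorem genuine {k : Type} [Field k] (K M R : Type) [Field K] [Algebra k[X] K]
    [IsFractionRing k[X] K] [Field M] [Algebra K M] [Algebra k[X] M] [IsScalarTower k[X] K M]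
    [FiniteDimensional K M] [CommRing R] [IsDedekindDomain R] [Algebra R M] [IsFractionRing R M]
    {n : ℕ} (hM : Module.finrank K M = 2 ^ n) (h2 : (2 : k) ≠ 0) {f : k[X][X]} (hm : f.Monic)
    (ho : Odd f.natDegree) (hs : (f.map (algebraMap k[X] K)).Separable)
    (hi : Irreducible (f.map (algebraMap k[X] K))) (h : SelF R (f.map (algebraMap k[X] M))) :
    (Function.Bijective fun P : J 2 (f.map (algebraMap k[X] M)) M => P ^ 2) ∧
      ShaPrimaryTrivial 2 (f.map (algebraMap k[X] M)) R := by
  have hmap : f.map (algebraMap k[X] M) = (f.map (algebraMap k[X] K)).map (algebraMap K M) := by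
    rw [Polynomial.map_map, ← IsScalarTower.algebraMap_eq k[X] K M]
  have hmK : (f.map (algebraMap k[X] K)).Monic := hm.map _
  have hdK : Odd (f.map (algebraMap k[X] K)).natDegree := by
    rw [hm.natDegree_map]
    exact ho
  have hF : (f.map (algebraMap k[X] M)).Monic := hm.map _
  have hd : Odd (f.map (algebraMap k[X] M)).natDegree := by
    rw [hm.natDegree_map]
    exact ho
  have hiM : Irreducible (f.map (algebraMap k[X] M)) := by
    rw [hmap]
    exact irr_up hM hi hmK hdK
  have hsM : (f.map (algebraMap k[X] M)).Separable := by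
    rw [hmap]
    exact hs.map
  have h2M : (2 : M) ≠ 0 := by
    letI : Algebra k M := ((algebraMap k[X] M).comp C).toAlgebra
    have h3 : algebraMap k M 2 ≠ 0 := by
      rw [Ne, map_eq_zero_iff _ (algebraMap k M).injective]
      exact h2
    rwa [map_ofNat] at h3
  have ht : Pool.Agent.N352.JB.SelTriv (Pool.Agent.N352.JB.PlR R M)
      (f.map (algebraMap k[X] M)) := by
    intro a h1 h2 h3
    refine h a h1 h2 fun v => ?_
    exact h3 (v.adicCompletion M) (Pool.Agent.N352.JB.PlR.mk v)
  refine ⟨Pool.Agent.N352.JB.ptsT M _ h2M hF hiM hsM hd _ ht, fun c m hc hl hb => ?_⟩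
  refine Pool.Agent.N352.JB.shaT M _ h2M hF hiM hsM hd _ ht c m hc (fun E _ _ hE => ?_) hb
  cases hE with
  | mk v => exact hl v

end Pool.Agent.N874.JM
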